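import Pool.Agent.P8H18.RR.Stm3
import Pool.Agent.P8H55.RR.Wal

set_option autoImplicit false

/-!
# Project DS, package WAL2

Adaptation of `Pool.Agent.P8H55.RR.wal` (helper55).
-/

namespace Pool.Agent.P8H94.DS

open Finset
open Pool.Agent.P8H18.RR Pool.Agent.P8H18.DS Pool.Agent.P8H55.RR

/-- expansion of the product of the balanced pairs -/
theorem expand3 (P : Finset ℕ) (W : ℕ → ℝ) (b : ℕ → ℕ → ℝ) (L K : ℕ) {M : ℝ} (hM0 : 0 ≤ M)
    (hM : ∀ V : Finset ℕ, V ⊆ Ioo 0 (2 * L) → V.Nonempty → V.card ≤ K →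
      |∑ n ∈ P, W n * ∏ j ∈ V, b j n| ≤ M) (S : Finset ℕ) :
    S ⊆ Ioo 0 L → ∀ V : Finset ℕ, V ⊆ Ioo 0 (2 * L) → (V.Nonempty ∨ S.Nonempty) →
      (∀ i ∈ S, i ∉ V ∧ 2 * L - i ∉ V) → V.card + 2 * S.card ≤ K →
      |∑ n ∈ P, W n * (∏ j ∈ V, b j n) *
        ∏ i ∈ S, (b i n * b (2 * L - i) n + b i n / 10 + b (2 * L - i) n / 10)| ≤ 2 ^ S.card * M := by
  classical
  induction S using Finset.induction_on with
  | empty =>
    intro _ V hV hne _ hK
    have hVne : V.Nonempty := by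
      rcases hne with h | h
      · exact h
      · exact absurd h (by simp)
    simpa using hM V hV hVne (by simpa using hK)
  | insert a S ha ih =>
    intro hS V hV _ hdis hK
    have haL : 0 < a ∧ a < L := by
      have := hS (mem_insert_self a S)
      rwa [mem_Ioo] at this
    have hS' : S ⊆ Ioo 0 L := fun i hi => hS (mem_insert_of_mem hi)
    have haV := (hdis a (mem_insert_self a S)).1
    have haV2 := (hdis a (mem_insert_self a S)).2
    have hne2 : 2 * L - a ≠ a := by omega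
    have hsub : ∀ i ∈ S, 0 < i ∧ i < L := fun i hi => by
      have := hS' hi
      rwa [mem_Ioo] at this
    rw [card_insert_of_notMem ha] at hK
    -- the three sets
    have i1 := ih hS' (insert a (insert (2 * L - a) V)) (by
      intro j hj
      rw [mem_insert, mem_insert] at hj
      rcases hj with h | h | h
      · rw [mem_Ioo]; omega
      · rw [mem_Ioo]; omega
      · exact hV h) (Or.inl (insert_nonempty _ _)) (by
      intro i hi
      have h1 := hdis i (mem_insert_of_mem hi)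
      have h2 := hsub i hi
      have h3 : i ≠ a := fun h => ha (h ▸ hi)
      rw [mem_insert, mem_insert, mem_insert, mem_insert]
      refine ⟨?_, ?_⟩
      · rintro (h | h | h)
        · exact h3 h
        · omega
        · exact h1.1 h
      · rintro (h | h | h)
        · omega
        · omega
        · exact h1.2 h) (by
      have := card_insert_le a (insert (2 * L - a) V)
      have := card_insert_le (2 * L - a) V
      omega)
    have i2 := ih hS' (insert a V) (by
      intro j hj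
      rw [mem_insert] at hj
      rcases hj with h | h
      · rw [mem_Ioo]; omega
      · exact hV h) (Or.inl (insert_nonempty _ _)) (by
      intro i hi
      have h1 := hdis i (mem_insert_of_mem hi)
      have h2 := hsub i hi
      have h3 : i ≠ a := fun h => ha (h ▸ hi)
      rw [mem_insert, mem_insert]
      refine ⟨?_, ?_⟩
      · rintro (h | h)
        · exact h3 h
        · exact h1.1 h
      · rintro (h | h)
        · omega
        · exact h1.2 h) (by
      have := card_insert_le a V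
      omega)
    have i3 := ih hS' (insert (2 * L - a) V) (by
      intro j hj
      rw [mem_insert] at hj
      rcases hj with h | h
      · rw [mem_Ioo]; omega
      · exact hV h) (Or.inl (insert_nonempty _ _)) (by
      intro i hi
      have h1 := hdis i (mem_insert_of_mem hi)
      have h2 := hsub i hi
      have h3 : i ≠ a := fun h => ha (h ▸ hi)
      rw [mem_insert, mem_insert]
      refine ⟨?_, ?_⟩
      · rintro (h | h)
        · omega
        · exact h1.1 h
      · rintro (h | h)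
        · omega
        · exact h1.2 h) (by
      have := card_insert_le (2 * L - a) V
      omega)
    have ha1 : a ∉ insert (2 * L - a) V := by
      rw [mem_insert]
      rintro (h | h)
      · exact hne2 h.symm
      · exact haV h
    have key : ∑ n ∈ P, W n * (∏ j ∈ V, b j n) *
        ∏ i ∈ insert a S, (b i n * b (2 * L - i) n + b i n / 10 + b (2 * L - i) n / 10) =
        ∑ n ∈ P, W n * (∏ j ∈ insert a (insert (2 * L - a) V), b j n) *
          ∏ i ∈ S, (b i n * b (2 * L - i) n + b i n / 10 + b (2 * L - i) n / 10) +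
        (1 / 10) * ∑ n ∈ P, W n * (∏ j ∈ insert a V, b j n) *
          ∏ i ∈ S, (b i n * b (2 * L - i) n + b i n / 10 + b (2 * L - i) n / 10) +
        (1 / 10) * ∑ n ∈ P, W n * (∏ j ∈ insert (2 * L - a) V, b j n) *
          ∏ i ∈ S, (b i n * b (2 * L - i) n + b i n / 10 + b (2 * L - i) n / 10) := by
      rw [mul_sum, mul_sum, ← sum_add_distrib, ← sum_add_distrib]
      refine sum_congr rfl fun n _ => ?_
      rw [prod_insert ha, prod_insert ha1, prod_insert haV2, prod_insert haV]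
      ring
    rw [key, card_insert_of_notMem ha, pow_succ]
    have hp : 0 ≤ 2 ^ S.card * M := by positivity
    rw [abs_le] at i1 i2 i3 ⊢
    constructor
    · linarith [i1.1, i2.1, i3.1]
    · linarith [i1.2, i2.2, i3.2]

/-- the weights: primes with logarithms minus the expected density -/
noncomputable def tw (n : ℕ) : ℝ :=
  (if n.Prime then Real.log n else 0) - 5 / 2 * (if n.Coprime 10 then 1 else 0)

theorem tw_le {L n : ℕ} (hL : 1 ≤ L) (hn : n < 10 ^ (2 * L + 1)) : |tw n| ≤ 10 * (2 * L + 1 : ℝ) := by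
  have hL' : (1 : ℝ) ≤ L := by exact_mod_cast hL
  have h1 : 0 ≤ (if n.Prime then Real.log n else 0) := by
    split_ifs with h
    · exact Real.log_natCast_nonneg n
    · exact le_rfl
  have h2 : (if n.Prime then Real.log n else 0) ≤ 9 * (2 * L + 1 : ℝ) := by
    split_ifs with h
    · have h3 : Real.log n ≤ Real.log ((10 : ℝ) ^ (2 * L + 1)) := by
        apply Real.log_le_log
        · exact_mod_cast h.pos
        · exact_mod_cast hn.le
      rw [Real.log_pow] at h3
      have h4 : Real.log 10 ≤ 9 := by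
        have := Real.log_le_sub_one_of_pos (show (0 : ℝ) < 10 by norm_num)
        linarith
      push_cast at h3
      have h5 : (2 * L + 1 : ℝ) * Real.log 10 ≤ (2 * L + 1 : ℝ) * 9 :=
        mul_le_mul_of_nonneg_left h4 (by positivity)
      linarith
    · positivity
  have h3 : (0 : ℝ) ≤ 5 / 2 * (if n.Coprime 10 then 1 else 0) := by
    split_ifs <;> norm_num
  have h4 : (5 / 2 * (if n.Coprime 10 then 1 else 0) : ℝ) ≤ 5 / 2 := by
    split_ifs <;> norm_num
  unfold tw
  rw [abs_le]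
  constructor <;> linarith

theorem tw_TH (L : ℕ) (α : ℝ) :
    ∑ n ∈ range (10 ^ (2 * L + 1)), (tw n : ℂ) * ee ((n : ℝ) * α) = TH (10 ^ (2 * L + 1) - 1) α := by
  have hpos : 0 < 10 ^ (2 * L + 1) := by positivity
  have h0 : tw 0 = 0 := by
    unfold tw
    rw [if_neg Nat.not_prime_zero, if_neg (by norm_num)]
    norm_num
  have h1 : range (10 ^ (2 * L + 1)) = insert 0 (Icc 1 (10 ^ (2 * L + 1) - 1)) := by
    ext n
    rw [mem_range, mem_insert, mem_Icc]
    omega
  rw [h1, sum_insert (by rw [mem_Icc]; omega), h0, Complex.ofReal_zero, zero_mul, zero_add]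
  unfold TH CP
  rw [sum_filter, sum_filter, mul_sum, ← sum_sub_distrib]
  refine sum_congr rfl fun n _ => ?_
  unfold tw
  by_cases h2 : n.Prime
  · by_cases h3 : n.Coprime 10
    · rw [if_pos h2, if_pos h2, if_pos h3, if_pos h3]
      push_cast
      ring
    · rw [if_pos h2, if_pos h2, if_neg h3, if_neg h3]
      push_cast
      ring
  · by_cases h3 : n.Coprime 10
    · rw [if_neg h2, if_neg h2, if_pos h3, if_pos h3]
      push_cast
      ring
    · rw [if_neg h2, if_neg h2, if_neg h3, if_neg h3]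
      push_cast
      ring

/-- the numbers -/
theorem numerics2 {c0 C0 C2 C : ℝ} (hc0 : 0 < c0) (hC0 : 0 < C0) {L H s : ℕ}
    (hL2 : 2 ≤ L) (hH0 : (0 : ℝ) < H) (hC2 : 0 < C2)
    (hs : (s : ℝ) ≤ c0 / 32 * √(L : ℝ) / Real.log L)
    (hfin : (2 * L + 1 : ℝ) * (C2 * (2 * L + 1 : ℝ) * 10 ^ (2 * L + 1) / (H : ℝ)) +
        Real.exp (c0 / 2 * √(L : ℝ)) * (1 * (C0 * 10 ^ (2 * L + 1) * Real.exp (-(c0 * √(L : ℝ))) +
          √((10 : ℝ) ^ (2 * L + 1)) * (1 + Real.log ((10 : ℝ) ^ (2 * L + 1))))) ≤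
        C * 10 ^ (2 * L + 1) * Real.exp (-(c0 / 8 * √(L : ℝ)))) :
    2 ^ s * (10 * (2 * L + 1 : ℝ) * ((2 * L + 1 : ℝ) * (C2 * (2 * L + 1 : ℝ) * 10 ^ (2 * L + 1) / (H : ℝ))) +
      Real.exp (c0 / 2 * √(L : ℝ)) * (C0 * 10 ^ (2 * L + 1) * Real.exp (-(c0 * √(L : ℝ))))) ≤
      C * (15360 / c0 ^ 2) * 10 ^ (2 * L + 1) * Real.exp (-(c0 / 32 * √(L : ℝ))) := by
  have hL2' : (2 : ℝ) ≤ L := by exact_mod_cast hL2
  obtain ⟨r, hr⟩ : ∃ r, r = √(L : ℝ) := ⟨_, rfl⟩
  have hLr : (L : ℝ) = r ^ 2 := by rw [hr, Real.sq_sqrt (Nat.cast_nonneg L)]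
  have hr0 : 0 ≤ r := by rw [hr]; exact Real.sqrt_nonneg _
  rw [← hr] at hs hfin ⊢
  have hlogL : 0 < Real.log L := Real.log_pos (by linarith)
  have hlog2 : Real.log 2 ≤ Real.log L := Real.log_le_log (by norm_num) hL2'
  obtain ⟨N, hN⟩ : ∃ N : ℝ, N = 10 ^ (2 * L + 1) := ⟨_, rfl⟩
  rw [← hN] at hfin ⊢
  have hN1 : 1 ≤ N := by rw [hN]; exact one_le_pow₀ (by norm_num)
  have hN0 : 0 < N := by linarith
  have hlogN : 0 ≤ Real.log N := Real.log_nonneg hN1
  have e1 : (2 : ℝ) ^ s ≤ Real.exp (c0 / 32 * r) := by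
    rw [le_div_iff₀ hlogL] at hs
    calc (2 : ℝ) ^ s = Real.exp (s * Real.log 2) := by
          rw [Real.exp_nat_mul, Real.exp_log (by norm_num)]
      _ ≤ _ := by
          apply Real.exp_le_exp.2
          exact (mul_le_mul_of_nonneg_left hlog2 (Nat.cast_nonneg s)).trans hs
  have e2 : 10 * (2 * L + 1 : ℝ) ≤ 15360 / c0 ^ 2 * Real.exp (c0 / 16 * r) := by
    have h1 := Real.pow_div_factorial_le_exp (c0 / 16 * r) (by positivity) 2
    have h2 : ((2 : ℕ).factorial : ℝ) = 2 := by norm_num [Nat.factorial]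
    rw [h2] at h1
    have h3 : 30 * r ^ 2 = 15360 / c0 ^ 2 * ((c0 / 16 * r) ^ 2 / 2) := by
      field_simp
      ring
    have h4 : 10 * (2 * L + 1 : ℝ) ≤ 30 * r ^ 2 := by rw [← hLr]; linarith
    refine h4.trans ?_
    rw [h3]
    exact mul_le_mul_of_nonneg_left h1 (by positivity)
  have e3 : (1 : ℝ) ≤ 10 * (2 * L + 1 : ℝ) := by linarith
  obtain ⟨X, hX⟩ : ∃ X : ℝ, X = (2 * L + 1 : ℝ) * (C2 * (2 * L + 1 : ℝ) * N / H) := ⟨_, rfl⟩
  obtain ⟨Y, hY⟩ : ∃ Y : ℝ, Y = Real.exp (c0 / 2 * r) * (C0 * N * Real.exp (-(c0 * r))) := ⟨_, rfl⟩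
  have hX0 : 0 ≤ X := by rw [hX]; positivity
  have hY0 : 0 ≤ Y := by rw [hY]; positivity
  have hXY : X + Y ≤ C * N * Real.exp (-(c0 / 8 * r)) := by
    refine le_trans ?_ hfin
    rw [hX, hY]
    have h1 : Real.exp (c0 / 2 * r) * (C0 * N * Real.exp (-(c0 * r))) ≤ Real.exp (c0 / 2 * r) *
        (1 * (C0 * N * Real.exp (-(c0 * r)) + √N * (1 + Real.log N))) := by
      apply mul_le_mul_of_nonneg_left _ (Real.exp_pos _).le
      have : 0 ≤ √N * (1 + Real.log N) := by positivity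
      linarith
    linarith
  rw [← hX, ← hY]
  calc 2 ^ s * (10 * (2 * L + 1 : ℝ) * X + Y) ≤ 2 ^ s * (10 * (2 * L + 1 : ℝ) * (X + Y)) := by
        apply mul_le_mul_of_nonneg_left _ (by positivity)
        have := mul_le_mul_of_nonneg_right e3 hY0
        linarith
    _ ≤ Real.exp (c0 / 32 * r) * ((15360 / c0 ^ 2 * Real.exp (c0 / 16 * r)) *
          (C * N * Real.exp (-(c0 / 8 * r)))) := by
        apply mul_le_mul e1 _ (by positivity) (Real.exp_pos _).le
        exact mul_le_mul e2 hXY (by positivity) (by positivity)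
    _ = C * (15360 / c0 ^ 2) * N * (Real.exp (c0 / 32 * r) * Real.exp (c0 / 16 * r) *
          Real.exp (-(c0 / 8 * r))) := by ring
    _ = C * (15360 / c0 ^ 2) * N * Real.exp (-(c0 / 32 * r)) := by
        rw [← Real.exp_add, ← Real.exp_add]
        congr 2
        ring

theorem wal2 : S_WAL2A := by
  classical
  rintro ⟨c0, C0, hc0, hC0, L1, hE⟩ ⟨C2, hC2, hD⟩ hZ
  obtain ⟨C, hC, L2, hnum⟩ := numerics hc0 hC0 one_pos hC2
  refine ⟨c0 / 32, C * (15360 / c0 ^ 2), by positivity, by positivity, max L1 L2,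
    fun L hL S hSne hSL hScard d d' e f hd hd' he hf => ?_⟩
  obtain ⟨hL2, hH20, hlogH, hfin⟩ := hnum L ((le_max_right _ _).trans hL)
  have hE' := hE L ((le_max_left _ _).trans hL)
  have hH1 : ((⌊Real.exp (c0 * √(L : ℝ))⌋₊ : ℕ) : ℝ) ≤ Real.exp (c0 * √(L : ℝ)) :=
    Nat.floor_le (Real.exp_pos _).le
  obtain ⟨H, hH⟩ : ∃ H, H = ⌊Real.exp (c0 * √(L : ℝ))⌋₊ := ⟨_, rfl⟩
  rw [← hH] at hH20 hlogH hfin hH1
  have hH0 : (0 : ℝ) < H := by
    have : 0 < H := by omega
    exact_mod_cast this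
  have hS1 : ∀ i ∈ S, 0 < i ∧ i < L := fun i hi => by
    have := hSL hi
    rwa [mem_Ioo] at this
  -- the digits
  obtain ⟨δ, hδ⟩ : ∃ δ : ℕ → ℕ, δ = fun j => if j = 0 then e else if j = 2 * L then f else
    if j < L then d j else d' (2 * L - j) := ⟨_, rfl⟩
  have hδ10 : ∀ j, δ j < 10 := by
    intro j
    rw [hδ]
    simp only
    split_ifs
    · exact he
    · exact hf
    · exact hd _
    · exact hd' _
  have hcc : ∀ j : ℕ, ∃ c : ℤ → ℂ, j < 2 * L + 1 → (c 0 = 1 / 10 ∧
      (∀ h : ℤ, (10 : ℤ) ∣ h → h ≠ 0 → c h = 0) ∧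
      ∑ h ∈ Icc (-(H : ℤ)) H, ‖c h‖ ≤ C2 * Real.log H ∧
      (∀ n : ℕ, ‖tp c H j n‖ ≤ 1) ∧ (∀ n : ℕ, ‖tp c H j n - 1 / 10‖ ≤ 1) ∧
      ∑ n ∈ range (10 ^ (2 * L + 1)), ‖(if dig n j = δ j then (1 : ℂ) else 0) - tp c H j n‖ ≤
        C2 * (2 * L + 1 : ℕ) * 10 ^ (2 * L + 1) / H) := by
    intro j
    by_cases hj : j < 2 * L + 1
    · obtain ⟨c, hc⟩ := hD (2 * L + 1) j (δ j) H hj (hδ10 j) hH20
      exact ⟨c, fun _ => hc⟩
    · exact ⟨0, fun h => absurd h hj⟩
  choose cc hcc using hcc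
  -- the functions
  obtain ⟨μ, hμ⟩ : ∃ μ : ℕ → ℂ, μ = fun j => if j = 0 ∨ j = 2 * L then 0 else 1 / 10 := ⟨_, rfl⟩
  obtain ⟨F, hF⟩ : ∃ F : ℕ → ℕ → ℂ, F = fun j n => (if dig n j = δ j then (1 : ℂ) else 0) - μ j :=
    ⟨_, rfl⟩
  obtain ⟨cp, hcp⟩ : ∃ cp : ℕ → ℤ → ℂ, cp = fun j h => if h = 0 then cc j h - μ j else cc j h :=
    ⟨_, rfl⟩
  obtain ⟨A, hA⟩ : ∃ A : ℕ → ℕ → ℂ, A = fun (j n : ℕ) => ∑ h ∈ Icc (-(H : ℤ)) H,
    cp j h * ee ((h : ℝ) * n / 10 ^ (j + 1)) := ⟨_, rfl⟩
  have hA1 : ∀ j n, A j n = tp (cc j) H j n - μ j := by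
    intro j n
    have h0 : (0 : ℤ) ∈ Icc (-(H : ℤ)) H := by
      rw [mem_Icc]; constructor <;> omega
    rw [hA]
    simp only
    unfold tp
    rw [← add_sum_erase _ _ h0, ← add_sum_erase (Icc (-(H : ℤ)) H) (fun h => cc j h * ee ((h : ℝ) * n / 10 ^ (j + 1))) h0]
    have h1 : ∑ h ∈ (Icc (-(H : ℤ)) H).erase 0, cp j h * ee ((h : ℝ) * n / 10 ^ (j + 1)) =
        ∑ h ∈ (Icc (-(H : ℤ)) H).erase 0, cc j h * ee ((h : ℝ) * n / 10 ^ (j + 1)) := by
      refine sum_congr rfl fun h hh => ?_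
      rw [hcp]
      simp only
      rw [if_neg (mem_erase.1 hh).1]
    have h2 : ee (((0 : ℤ) : ℝ) * n / 10 ^ (j + 1)) = 1 := by
      rw [Int.cast_zero, zero_mul, zero_div, ee_zero]
    rw [h1, h2, hcp]
    simp only [if_true]
    ring
  have hFA : ∀ j n, F j n - A j n = (if dig n j = δ j then (1 : ℂ) else 0) - tp (cc j) H j n := by
    intro j n
    rw [hA1, hF]
    simp only
    ring
  have hFle : ∀ j n, ‖F j n‖ ≤ 1 := by
    intro j n
    rw [hF, hμ]
    simp only
    split_ifs <;> norm_num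
  have hAle : ∀ j < 2 * L + 1, ∀ n, ‖A j n‖ ≤ 1 := by
    intro j hj n
    rw [hA1, hμ]
    simp only
    split_ifs
    · rw [sub_zero]; exact (hcc j hj).2.2.2.1 n
    · exact (hcc j hj).2.2.2.2.1 n
  have hcple : ∀ j < 2 * L + 1, ∑ h ∈ Icc (-(H : ℤ)) H, ‖cp j h‖ ≤ L := by
    intro j hj
    refine le_trans (sum_le_sum fun h _ => ?_) ((hcc j hj).2.2.1.trans hlogH)
    rw [hcp]
    simp only
    split_ifs with h0
    · rw [h0, (hcc j hj).1, hμ]
      simp only
      split_ifs <;> norm_num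
    · exact le_rfl
  have hlogL : 0 < Real.log L := Real.log_pos (by exact_mod_cast (by omega : 1 < L))
  -- the balanced digits
  obtain ⟨b, hb⟩ : ∃ b : ℕ → ℕ → ℝ, b = fun j n => (if dig n j = δ j then (1 : ℝ) else 0) - 1 / 10 :=
    ⟨_, rfl⟩
  obtain ⟨W, hW⟩ : ∃ W : ℕ → ℝ, W = fun n => tw n * ((if dig n 0 = e then (1 : ℝ) else 0) *
    (if dig n (2 * L) = f then (1 : ℝ) else 0)) := ⟨_, rfl⟩
  obtain ⟨M, hM⟩ : ∃ M : ℝ, M = 10 * (2 * L + 1 : ℝ) * ((2 * L + 1 : ℝ) *
    (C2 * (2 * L + 1 : ℝ) * 10 ^ (2 * L + 1) / H)) + Real.exp (c0 / 2 * √(L : ℝ)) *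
    (C0 * 10 ^ (2 * L + 1) * Real.exp (-(c0 * √(L : ℝ)))) := ⟨_, rfl⟩
  have hM0 : 0 ≤ M := by rw [hM]; positivity
  -- products over sets of places
  have key : ∀ V : Finset ℕ, V ⊆ Ioo 0 (2 * L) → V.Nonempty → V.card ≤ 2 * S.card →
      |∑ n ∈ range (10 ^ (2 * L + 1)), W n * ∏ j ∈ V, b j n| ≤ M := by
    intro V hV hVne hVc
    have hV1 : ∀ j ∈ V, 0 < j ∧ j < 2 * L := fun j hj => by
      have := hV hj
      rwa [mem_Ioo] at this
    obtain ⟨U, hU⟩ : ∃ U : Finset ℕ, U = insert 0 (insert (2 * L) V) := ⟨_, rfl⟩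
    have hUsub : U ⊆ range (2 * L + 1) := by
      intro j hj
      rw [hU, mem_insert, mem_insert] at hj
      rw [mem_range]
      rcases hj with h | h | h
      · omega
      · omega
      · have := hV1 j h; omega
    have hUc : U.card ≤ 4 * S.card := by
      have h1 : U.card ≤ V.card + 1 + 1 := by
        rw [hU]
        exact (card_insert_le _ _).trans (Nat.add_le_add_right (card_insert_le _ _) 1)
      have h4 := hSne.card_pos
      omega
    have hUc2 : (U.card : ℝ) * Real.log L ≤ c0 / 2 * √(L : ℝ) := by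
      have h1 : (U.card : ℝ) ≤ 4 * S.card := by exact_mod_cast hUc
      have h2 := hScard
      rw [le_div_iff₀ hlogL] at h2
      have h3 : 0 ≤ c0 * √(L : ℝ) := by positivity
      calc (U.card : ℝ) * Real.log L ≤ (4 * S.card) * Real.log L := mul_le_mul_of_nonneg_right h1 hlogL.le
        _ = 4 * (S.card * Real.log L) := by ring
        _ ≤ 4 * (c0 / 32 * √(L : ℝ)) := by linarith
        _ ≤ _ := by linarith
    have hUc3 : (U.card : ℝ) ≤ c0 * √(L : ℝ) / Real.log L := by
      rw [le_div_iff₀ hlogL]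
      refine hUc2.trans ?_
      have : 0 ≤ c0 * √(L : ℝ) := by positivity
      linarith
    have hprod : ∀ n, ∏ j ∈ U, F j n = (if dig n 0 = e then (1 : ℂ) else 0) *
        ((if dig n (2 * L) = f then (1 : ℂ) else 0) * ∏ j ∈ V, (b j n : ℂ)) := by
      intro n
      have d2 : 2 * L ∉ V := fun h => by have := hV1 _ h; omega
      have d3 : 0 ∉ insert (2 * L) V := by
        rw [mem_insert]
        rintro (h | h)
        · omega
        · have := hV1 _ h; omega
      rw [hU, prod_insert d3, prod_insert d2]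
      have f0 : F 0 n = if dig n 0 = e then (1 : ℂ) else 0 := by
        rw [hF, hδ, hμ]
        simp
      have f1 : F (2 * L) n = if dig n (2 * L) = f then (1 : ℂ) else 0 := by
        have h0 : L ≠ 0 := by omega
        rw [hF, hδ, hμ]
        simp [h0]
      rw [f0, f1]
      congr 2
      refine prod_congr rfl fun j hj => ?_
      have hj' := hV1 j hj
      rw [hF, hb, hμ]
      simp only
      rw [if_neg (by omega : ¬ (j = 0 ∨ j = 2 * L))]
      split_ifs <;> push_cast <;> rfl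
    have hsum : ((∑ n ∈ range (10 ^ (2 * L + 1)), W n * ∏ j ∈ V, b j n : ℝ) : ℂ) =
        ∑ n ∈ range (10 ^ (2 * L + 1)), (tw n : ℂ) * ∏ j ∈ U, F j n := by
      rw [Complex.ofReal_sum]
      refine sum_congr rfl fun n _ => ?_
      rw [hprod, hW]
      simp only
      rw [Complex.ofReal_mul, Complex.ofReal_mul, Complex.ofReal_mul, Complex.ofReal_prod]
      have g1 : (((if dig n 0 = e then (1 : ℝ) else 0) : ℝ) : ℂ) = if dig n 0 = e then (1 : ℂ) else 0 := by
        split_ifs <;> simp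
      have g2 : (((if dig n (2 * L) = f then (1 : ℝ) else 0) : ℝ) : ℂ) =
          if dig n (2 * L) = f then (1 : ℂ) else 0 := by
        split_ifs <;> simp
      rw [g1, g2]
      ring
    rw [← Real.norm_eq_abs, ← Complex.norm_real, hsum]
    -- approximation
    have hdiff : ‖∑ n ∈ range (10 ^ (2 * L + 1)), (tw n : ℂ) * ∏ j ∈ U, F j n -
        ∑ n ∈ range (10 ^ (2 * L + 1)), (tw n : ℂ) * ∏ j ∈ U, A j n‖ ≤
        10 * (2 * L + 1 : ℝ) * ((2 * L + 1 : ℝ) * (C2 * (2 * L + 1 : ℝ) * 10 ^ (2 * L + 1) / H)) := by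
      rw [← sum_sub_distrib]
      refine (norm_sum_le _ _).trans ?_
      have h1 : ∀ n ∈ range (10 ^ (2 * L + 1)),
          ‖(tw n : ℂ) * ∏ j ∈ U, F j n - (tw n : ℂ) * ∏ j ∈ U, A j n‖ ≤ 10 * (2 * L + 1 : ℝ) *
          ∑ j ∈ U, ‖(if dig n j = δ j then (1 : ℂ) else 0) - tp (cc j) H j n‖ := by
        intro n hn
        rw [← mul_sub, norm_mul, Complex.norm_real, Real.norm_eq_abs]
        refine mul_le_mul (tw_le (by omega) (mem_range.1 hn)) ?_ (norm_nonneg _) (by positivity)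
        refine (prod_diff U (fun j => F j n) (fun j => A j n) (fun j _ => hFle j n)
          (fun j hj => hAle j (mem_range.1 (hUsub hj)) n)).trans (le_of_eq ?_)
        exact sum_congr rfl fun j _ => by rw [hFA]
      refine (sum_le_sum h1).trans ?_
      rw [← mul_sum]
      refine mul_le_mul_of_nonneg_left ?_ (by positivity)
      rw [sum_comm]
      have h2 : ∀ j ∈ U, ∑ n ∈ range (10 ^ (2 * L + 1)),
          ‖(if dig n j = δ j then (1 : ℂ) else 0) - tp (cc j) H j n‖ ≤
          C2 * (2 * L + 1 : ℝ) * 10 ^ (2 * L + 1) / H := by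
        intro j hj
        have h3 := (hcc j (mem_range.1 (hUsub hj))).2.2.2.2.2
        push_cast at h3
        exact h3
      refine (sum_le_card_nsmul _ _ _ h2).trans ?_
      rw [nsmul_eq_mul]
      refine mul_le_mul_of_nonneg_right ?_ (by positivity)
      have h3 := card_le_card hUsub
      rw [card_range] at h3
      exact_mod_cast h3
    -- expansion
    have hexp := expand (range (10 ^ (2 * L + 1))) cp H
      (M := C0 * 10 ^ (2 * L + 1) * Real.exp (-(c0 * √(L : ℝ)))) U (fun n => (tw n : ℂ)) (by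
      intro h hb hne
      rw [tw_TH]
      refine hE' U h hUsub hUc3 (by
        intro i hi
        have h2 : ((|h i| : ℤ) : ℝ) ≤ ((H : ℤ) : ℝ) := by exact_mod_cast hb i hi
        rw [Int.cast_abs, Int.cast_natCast] at h2
        exact h2.trans hH1) (by
        intro i hi h0 h2L hdvd
        apply hne i hi
        rw [hcp]
        simp only
        by_cases hz : h i = 0
        · rw [if_pos hz, hz, (hcc i (mem_range.1 (hUsub hi))).1, hμ]
          simp only
          rw [if_neg (by tauto), sub_self]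
        · rw [if_neg hz]
          exact (hcc i (mem_range.1 (hUsub hi))).2.1 _ hdvd hz) (by
        obtain ⟨i, hi⟩ := hVne
        refine ⟨i, ?_, (hV1 i hi).1, (hV1 i hi).2⟩
        rw [hU]
        exact mem_insert_of_mem (mem_insert_of_mem hi)) _ (Nat.sub_le _ _))
    have hprodc : ∏ j ∈ U, ∑ h ∈ Icc (-(H : ℤ)) H, ‖cp j h‖ ≤ Real.exp (c0 / 2 * √(L : ℝ)) := by
      calc ∏ j ∈ U, ∑ h ∈ Icc (-(H : ℤ)) H, ‖cp j h‖ ≤ ∏ _j ∈ U, (L : ℝ) :=
            prod_le_prod (fun _ _ => sum_nonneg fun _ _ => norm_nonneg _)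
              (fun j hj => hcple j (mem_range.1 (hUsub hj)))
        _ = (L : ℝ) ^ U.card := by rw [prod_const]
        _ = Real.exp (U.card * Real.log L) := by
            rw [Real.exp_nat_mul, Real.exp_log (by exact_mod_cast (by omega : 0 < L))]
        _ ≤ _ := Real.exp_le_exp.2 hUc2
    have hmain : ‖∑ n ∈ range (10 ^ (2 * L + 1)), (tw n : ℂ) * ∏ j ∈ U, A j n‖ ≤
        Real.exp (c0 / 2 * √(L : ℝ)) * (C0 * 10 ^ (2 * L + 1) * Real.exp (-(c0 * √(L : ℝ)))) := by
      refine le_trans (le_of_eq ?_) (hexp.trans (mul_le_mul_of_nonneg_right hprodc (by positivity)))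
      congr 1
      refine sum_congr rfl fun n _ => ?_
      rw [hA]
    rw [hM]
    calc ‖∑ n ∈ range (10 ^ (2 * L + 1)), (tw n : ℂ) * ∏ j ∈ U, F j n‖ =
          ‖(∑ n ∈ range (10 ^ (2 * L + 1)), (tw n : ℂ) * ∏ j ∈ U, F j n -
            ∑ n ∈ range (10 ^ (2 * L + 1)), (tw n : ℂ) * ∏ j ∈ U, A j n) +
          ∑ n ∈ range (10 ^ (2 * L + 1)), (tw n : ℂ) * ∏ j ∈ U, A j n‖ := by rw [sub_add_cancel]
      _ ≤ _ := (norm_add_le _ _).trans (add_le_add hdiff hmain)
  -- the pairs
  have h3 := expand3 (range (10 ^ (2 * L + 1))) W b L (2 * S.card) hM0 key S hSL ∅ (by simp)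
    (Or.inr hSne) (by simp) (by simp)
  have hbal : ∀ n, ∀ i ∈ S, b i n * b (2 * L - i) n + b i n / 10 + b (2 * L - i) n / 10 =
      bal L i (d i) (d' i) n := by
    intro n i hi
    have hi' := hS1 i hi
    have g1 : δ i = d i := by
      rw [hδ]
      simp only
      rw [if_neg (by omega : ¬ i = 0), if_neg (by omega : ¬ i = 2 * L), if_pos hi'.2]
    have g3 : δ (2 * L - i) = d' i := by
      rw [hδ]
      simp only
      rw [if_neg (by omega : ¬ 2 * L - i = 0), if_neg (by omega : ¬ 2 * L - i = 2 * L),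
        if_neg (by omega : ¬ 2 * L - i < L), show 2 * L - (2 * L - i) = i by omega]
    rw [hb]
    simp only
    rw [g1, g3]
    unfold bal
    by_cases h1 : dig n i = d i
    · by_cases h2 : dig n (2 * L - i) = d' i
      · rw [if_pos h1, if_pos h2, if_pos ⟨h1, h2⟩]
        norm_num
      · rw [if_pos h1, if_neg h2, if_neg (fun h => h2 h.2)]
        norm_num
    · by_cases h2 : dig n (2 * L - i) = d' i
      · rw [if_neg h1, if_pos h2, if_neg (fun h => h1 h.1)]
        norm_num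
      · rw [if_neg h1, if_neg h2, if_neg (fun h => h1 h.1)]
        norm_num
  have hfinal : ∑ n ∈ (range (10 ^ (2 * L + 1))).filter
      (fun n => n.Prime ∧ dig n 0 = e ∧ dig n (2 * L) = f),
      Real.log n * ∏ i ∈ S, bal L i (d i) (d' i) n =
      ∑ n ∈ range (10 ^ (2 * L + 1)), W n * (∏ j ∈ (∅ : Finset ℕ), b j n) *
        ∏ i ∈ S, (b i n * b (2 * L - i) n + b i n / 10 + b (2 * L - i) n / 10) := by
    have h0 := hZ L S hSne hSL d d' e f hd hd'
    have h1 : ∀ n, W n * (∏ j ∈ (∅ : Finset ℕ), b j n) *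
        ∏ i ∈ S, (b i n * b (2 * L - i) n + b i n / 10 + b (2 * L - i) n / 10) =
        (if n.Prime ∧ dig n 0 = e ∧ dig n (2 * L) = f then
          Real.log n * ∏ i ∈ S, bal L i (d i) (d' i) n else 0) -
        5 / 2 * (if n.Coprime 10 ∧ dig n 0 = e ∧ dig n (2 * L) = f then
          ∏ i ∈ S, bal L i (d i) (d' i) n else 0) := by
      intro n
      rw [prod_congr rfl (hbal n), prod_empty, mul_one, hW]
      simp only
      unfold tw
      by_cases h1 : dig n 0 = e
      · by_cases h2 : dig n (2 * L) = f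
        · by_cases h4 : n.Prime
          · by_cases h5 : n.Coprime 10
            · rw [if_pos h1, if_pos h2, if_pos h4, if_pos h5, if_pos ⟨h4, h1, h2⟩, if_pos ⟨h5, h1, h2⟩]
              ring
            · rw [if_pos h1, if_pos h2, if_pos h4, if_neg h5, if_pos ⟨h4, h1, h2⟩,
                if_neg (fun h => h5 h.1)]
              ring
          · by_cases h5 : n.Coprime 10
            · rw [if_pos h1, if_pos h2, if_neg h4, if_pos h5, if_neg (fun h => h4 h.1),
                if_pos ⟨h5, h1, h2⟩]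
              ring
            · rw [if_pos h1, if_pos h2, if_neg h4, if_neg h5, if_neg (fun h => h4 h.1),
                if_neg (fun h => h5 h.1)]
              ring
        · have k1 : ¬ (n.Prime ∧ dig n 0 = e ∧ dig n (2 * L) = f) := fun h => h2 h.2.2
          have k2 : ¬ (n.Coprime 10 ∧ dig n 0 = e ∧ dig n (2 * L) = f) := fun h => h2 h.2.2
          rw [if_neg h2, if_neg k1, if_neg k2]
          ring
      · have k1 : ¬ (n.Prime ∧ dig n 0 = e ∧ dig n (2 * L) = f) := fun h => h1 h.2.1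
        have k2 : ¬ (n.Coprime 10 ∧ dig n 0 = e ∧ dig n (2 * L) = f) := fun h => h1 h.2.1
        rw [if_neg h1, if_neg k1, if_neg k2]
        ring
    rw [sum_congr rfl (fun n _ => h1 n), sum_sub_distrib, ← mul_sum, ← sum_filter, ← sum_filter, h0,
      mul_zero, sub_zero]
  rw [hfinal]
  refine h3.trans ?_
  rw [hM]
  exact numerics2 hc0 hC0 hL2 hH0 hC2 hScard hfin

end Pool.Agent.P8H94.DS
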